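import Mathlib
import Pool.Agent.Helper397.K4

set_option autoImplicit false

namespace Pool.Agent.Results.MP_e36232_lc.HalfBound

open Cardinal

/-- Under GCH, for every `n ≥ 3`, every infinite `κ` and every set of size `κ^{+n}` there is a set
mapping of type `n` with finite values, hence of order `κ`, for which every free set has size less
than `κ^{+(⌊n/2⌋+1)}`. For `n = 3` the bound is `κ^{++}`, which is the case `n = 3` of the
question. -/
theorem result
    (gch : ∀ c : Cardinal.{0}, ℵ₀ ≤ c → (2 : Cardinal.{0}) ^ c = Order.succ c)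
    (n : ℕ) (hn : 3 ≤ n) (κ : Cardinal.{0}) (hκ : ℵ₀ ≤ κ) (S : Type)
    (hS : #S = Order.succ^[n] κ) :
    ∃ f : Finset S → Set S,
      (∀ X : Finset S, X.card = n → (f X).Finite ∧ #(f X) < κ ∧ Disjoint (↑X : Set S) (f X)) ∧
      ∀ T : Set S,
        (∀ X : Finset S, X.card = n → (↑X : Set S) ⊆ T → Disjoint T (f X)) →
        #T < Order.succ^[n / 2 + 1] κ := by
  obtain ⟨f, h1, h2⟩ := Pool.Agent.Helper397.K4.main hκ gch n hn S hS
  exact ⟨f, fun X hX => ⟨(h1 X hX).1,
    (Cardinal.lt_aleph0_iff_set_finite.mpr (h1 X hX).1).trans_le hκ, (h1 X hX).2⟩, h2⟩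

end Pool.Agent.Results.MP_e36232_lc.HalfBound
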